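import Mathlib

open Set Matroid

namespace Pool.Agent.Results.MP_5f9c07_co.NormalBlock

/-! ### Definitions -/

/-- `M` is simple: no loops and no pair of parallel elements. -/
def IsSimple {α : Type} (M : Matroid α) : Prop := ∀ e ∈ M.E, ∀ f ∈ M.E, M.Indep {e, f}

/-- `v` is a representation of `M` over the field `F`. -/
def IsRep (F : Type) [Field F] {α V : Type} [AddCommGroup V] [Module F V] (M : Matroid α)
    (v : α → V) : Prop := ∀ I ⊆ M.E, M.Indep I ↔ LinearIndepOn F v I

/-- `M` is `F`-representable. -/
def Representable (F : Type) [Field F] {α : Type} (M : Matroid α) : Prop :=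
  ∃ (n : ℕ) (v : α → Fin n → F), IsRep F M v

open Classical in
/-- The characteristic polynomial `p(M; t) = ∑_{X ⊆ E} (-1)^{|X|} t^{r(E) - r(X)}` (as a function
of the integer `t`). -/
noncomputable def charPoly {α : Type} [Fintype α] (M : Matroid α) (t : ℤ) : ℤ :=
  ∑ X ∈ (Finset.univ : Finset (Finset α)).filter (fun X : Finset α => (X : Set α) ⊆ M.E),
    (-1) ^ X.card * t ^ ((M.eRk M.E).toNat - (M.eRk (X : Set α)).toNat)

/-- The critical exponent satisfies `c(M; q) ≤ k`: `M` has no loop and `p(M; q^j) > 0` for some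
`j ≤ k`. -/
def CritLE {α : Type} [Fintype α] (M : Matroid α) (q k : ℕ) : Prop :=
  (∀ e ∈ M.E, M.Indep {e}) ∧ ∃ j ≤ k, 0 < charPoly M ((q : ℤ) ^ j)

/-- `M` is a tangential `k`-block over the finite field `F`. -/
def IsTangentialBlock (F : Type) [Field F] [Fintype F] {α : Type} [Fintype α] (k : ℕ)
    (M : Matroid α) : Prop :=
  IsSimple M ∧ Representable F M ∧ ¬ CritLE M (Fintype.card F) k ∧
    ∀ N : Matroid α, N <m M → IsSimple N → CritLE N (Fintype.card F) k

/-- `K` is the cycle matroid of the graph `G`: the ground set is the edge set, and a set of edges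
is independent iff it is the edge set of a forest. -/
def IsCycleMatroid {V : Type} (G : SimpleGraph V) (K : Matroid (Sym2 V)) : Prop :=
  K.E = G.edgeSet ∧ ∀ I ⊆ G.edgeSet, (K.Indep I ↔ (SimpleGraph.fromEdgeSet I).IsAcyclic)

/-- `Q` is a quotient of `K`: same ground set, and every flat of `Q` is a flat of `K`. -/
def IsQuotient {α : Type} (Q K : Matroid α) : Prop :=
  Q.E = K.E ∧ ∀ F, Q.IsFlat F → K.IsFlat F

/-- `M` is isomorphic (via `ρ`) to the simplification of `Q`: `ρ` is an isomorphism of `M` with the
restriction of `Q` to a set consisting of exactly one element of each parallel class of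
non-loops of `Q`. -/
def IsIsoToSimplification {α β : Type} (M : Matroid α) (Q : Matroid β) : Prop :=
  ∃ ρ : α → β, Set.InjOn ρ M.E ∧ (∀ e ∈ M.E, ρ e ∈ Q.E) ∧
    (∀ I ⊆ M.E, M.Indep I ↔ Q.Indep (ρ '' I)) ∧
    (∀ e ∈ M.E, Q.Indep {ρ e}) ∧
    (∀ f ∈ Q.E, Q.Indep {f} → ∃! e, e ∈ M.E ∧ (ρ e = f ∨ ¬ Q.Indep {ρ e, f}))

/-- `M` is normal (with respect to the prime power `q` and `k`): it is isomorphic to the
simplification of a quotient of the cycle matroid of the complete graph on `q^k+1` vertices. -/
def IsNormal {α : Type} (q k : ℕ) (M : Matroid α) : Prop :=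
  ∃ K Q : Matroid (Sym2 (Fin (q ^ k + 1))), IsCycleMatroid ⊤ K ∧ IsQuotient Q K ∧
    IsIsoToSimplification M Q

/-- `F` is a modular flat. -/
def IsModularFlat {α : Type} (M : Matroid α) (F : Set α) : Prop :=
  M.IsFlat F ∧ ∀ X, M.IsFlat X → M.eRk F + M.eRk X = M.eRk (F ∪ X) + M.eRk (F ∩ X)

/-- `M` has a modular hyperplane: a modular flat of rank `r(M) - 1`. -/
def HasModularHyperplane {α : Type} (M : Matroid α) : Prop :=
  ∃ F, IsModularFlat M F ∧ M.eRk F + 1 = M.eRank

/-! ### Linear matroids -/

section Linear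

variable {F : Type} [Field F] {α V : Type} [AddCommGroup V] [Module F V]

theorem ncard_eq_finrank [Finite α] {v : α → V} {I : Set α} (h : LinearIndepOn F v I) :
    I.ncard = Module.finrank F (Submodule.span F (v '' I)) := by
  classical
  have := Fintype.ofFinite α
  have hI : Fintype I := Fintype.ofFinite I
  have h1 := finrank_span_eq_card (R := F) (b := fun i : I => v i) h
  rw [show v '' I = Set.range (fun i : I => v i) by
    ext x; simp, h1, ← Nat.card_coe_set_eq, Nat.card_eq_fintype_card]

/-- the linear matroid of a family of vectors on a finite type -/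
noncomputable def linMat (F : Type) [Field F] {α V : Type} [Finite α] [AddCommGroup V] [Module F V]
    (E : Set α) (v : α → V) : Matroid α :=
  (IndepMatroid.ofFinite (E := E) E.toFinite (fun I => I ⊆ E ∧ LinearIndepOn F v I)
    ⟨empty_subset _, linearIndepOn_empty F v⟩
    (fun _ _ hJ hIJ => ⟨hIJ.trans hJ.1, hJ.2.mono hIJ⟩)
    (fun I J hI hJ hlt => by
      by_contra hcon
      push Not at hcon
      have hle : Submodule.span F (v '' J) ≤ Submodule.span F (v '' I) := by
        rw [Submodule.span_le]
        rintro _ ⟨e, he, rfl⟩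
        by_cases heI : e ∈ I
        · exact Submodule.subset_span ⟨e, heI, rfl⟩
        · by_contra hns
          refine hcon e he heI (insert_subset (hJ.1 he) hI.1) (hI.2.insert hns)
      have hfin : Module.Finite F (Submodule.span F (v '' I)) :=
        Module.Finite.span_of_finite F (Set.toFinite _)
      have := Submodule.finrank_mono hle
      rw [← ncard_eq_finrank hI.2, ← ncard_eq_finrank hJ.2] at this
      omega)
    (fun _ h => h.1)).matroid

variable [Finite α]

theorem linMat_E (E : Set α) (v : α → V) : (linMat F E v).E = E := rfl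

theorem linMat_indep (E : Set α) (v : α → V) (I : Set α) :
    (linMat F E v).Indep I ↔ I ⊆ E ∧ LinearIndepOn F v I := Iff.rfl

theorem linMat_rep (E : Set α) (v : α → V) : IsRep F (linMat F E v) v := by
  intro I hI
  rw [linMat_indep]
  exact and_iff_right hI

omit [Finite α] in
theorem IsRep.mem_closure_indep {M : Matroid α} {v : α → V} (h : IsRep F M v) {I : Set α}
    (hI : M.Indep I) {e : α} (he : e ∈ M.E) :
    e ∈ M.closure I ↔ v e ∈ Submodule.span F (v '' I) := by
  have hIl : LinearIndepOn F v I := (h I hI.subset_ground).1 hI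
  rw [hI.mem_closure_iff', hIl.mem_span_iff, and_iff_right he,
    h _ (insert_subset he hI.subset_ground)]

omit [Finite α] in
theorem IsRep.span_basis {M : Matroid α} {v : α → V} (h : IsRep F M v) {I X : Set α}
    (hI : M.IsBasis I X) : Submodule.span F (v '' X) = Submodule.span F (v '' I) := by
  apply le_antisymm
  · rw [Submodule.span_le]
    rintro _ ⟨e, he, rfl⟩
    exact (h.mem_closure_indep hI.indep (hI.subset_ground he)).1 (hI.subset_closure he)
  · exact Submodule.span_mono (image_mono hI.subset)

omit [Finite α] in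
theorem IsRep.mem_closure {M : Matroid α} {v : α → V} (h : IsRep F M v) {X : Set α}
    (hX : X ⊆ M.E) {e : α} (he : e ∈ M.E) :
    e ∈ M.closure X ↔ v e ∈ Submodule.span F (v '' X) := by
  obtain ⟨I, hI⟩ := M.exists_isBasis X
  rw [← hI.closure_eq_closure, h.mem_closure_indep hI.indep he, h.span_basis hI]

theorem IsRep.eRk {M : Matroid α} {v : α → V} (h : IsRep F M v) {X : Set α} (hX : X ⊆ M.E) :
    M.eRk X = (Module.finrank F (Submodule.span F (v '' X)) : ℕ) := by
  obtain ⟨I, hI⟩ := M.exists_isBasis X
  rw [hI.eRk_eq_encard, h.span_basis hI,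
    ← ncard_eq_finrank ((h I hI.indep.subset_ground).1 hI.indep), Set.Finite.cast_ncard_eq]
  exact Set.toFinite I

/-- The critical theorem for one functional. -/
theorem critical [Fintype F] [Module.Finite F V] {α : Type} [Fintype α] {M : Matroid α}
    {v : α → V} (h : IsRep F M v) :
    charPoly M (Fintype.card F) *
      (Fintype.card F : ℤ) ^ (Module.finrank F V - Module.finrank F (Submodule.span F (v '' M.E)))
      = Nat.card {f : Module.Dual F V // ∀ e ∈ M.E, f (v e) ≠ 0} := by
  classical
  have : Finite V := Module.finite_of_finite F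
  have : Finite (Module.Dual F V) := Module.finite_of_finite F
  have : Fintype (Module.Dual F V) := Fintype.ofFinite _
  set q : ℤ := (Fintype.card F : ℤ) with hq
  set n := Module.finrank F V with hn
  set E' : Finset α := Finset.univ.filter (fun e => e ∈ M.E) with hE'
  have hfilter : (Finset.univ : Finset (Finset α)).filter (fun X : Finset α => (X : Set α) ⊆ M.E)
      = E'.powerset := by
    ext X
    simp only [Finset.mem_filter, Finset.mem_univ, true_and, Finset.mem_powerset, hE']
    constructor
    · intro hX e he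
      exact Finset.mem_filter.2 ⟨Finset.mem_univ _, hX he⟩
    · intro hX e he
      exact (Finset.mem_filter.1 (hX he)).2
  -- number of functionals killing X
  have hkill : ∀ X : Finset α, (Nat.card {f : Module.Dual F V // ∀ e ∈ X, f (v e) = 0} : ℤ)
      = q ^ (n - Module.finrank F (Submodule.span F (v '' (X : Set α)))) := by
    intro X
    have e1 : {f : Module.Dual F V | ∀ e ∈ X, f (v e) = 0}
        = (Submodule.span F (v '' (X : Set α))).dualAnnihilator := by
      ext f
      simp only [Set.mem_ofPred_eq, SetLike.mem_coe, Submodule.mem_dualAnnihilator]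
      constructor
      · intro hf w hw
        have hle : Submodule.span F (v '' (X : Set α)) ≤ LinearMap.ker f := by
          rw [Submodule.span_le]
          rintro _ ⟨e, he, rfl⟩
          exact hf e he
        exact hle hw
      · intro hf e he
        exact hf _ (Submodule.subset_span ⟨e, he, rfl⟩)
    have e2 : Nat.card {f : Module.Dual F V // ∀ e ∈ X, f (v e) = 0}
        = Nat.card (Submodule.span F (v '' (X : Set α))).dualAnnihilator := by
      change Nat.card ({f : Module.Dual F V | ∀ e ∈ X, f (v e) = 0} : Set _) = _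
      rw [e1]
      rfl
    have e3 := Subspace.finrank_add_finrank_dualAnnihilator_eq
      (Submodule.span F (v '' (X : Set α)))
    rw [e2, Module.natCard_eq_pow_finrank (K := F), Nat.card_eq_fintype_card]
    have e4 : Module.finrank F (Submodule.span F (v '' (X : Set α))).dualAnnihilator
        = n - Module.finrank F (Submodule.span F (v '' (X : Set α))) := by omega
    rw [e4]
    push_cast
    rfl
  -- rank identity
  have hrk : ∀ X ∈ E'.powerset, (-1 : ℤ) ^ X.card *
      q ^ ((M.eRk M.E).toNat - (M.eRk (X : Set α)).toNat) *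
      q ^ (n - Module.finrank F (Submodule.span F (v '' M.E))) =
      (-1) ^ X.card * q ^ (n - Module.finrank F (Submodule.span F (v '' (X : Set α)))) := by
    intro X hX
    have hXE : (X : Set α) ⊆ M.E := by
      rw [← hfilter, Finset.mem_filter] at hX
      exact hX.2
    rw [h.eRk hXE, h.eRk (subset_refl _), ENat.toNat_natCast, ENat.toNat_natCast, mul_assoc, ← pow_add]
    have h1 : Module.finrank F (Submodule.span F (v '' (X : Set α))) ≤
        Module.finrank F (Submodule.span F (v '' M.E)) :=
      Submodule.finrank_mono (Submodule.span_mono (image_mono hXE))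
    have h2 : Module.finrank F (Submodule.span F (v '' M.E)) ≤ n := Submodule.finrank_le _
    congr 2
    omega
  unfold charPoly
  rw [hfilter, Finset.sum_mul, Finset.sum_congr rfl hrk]
  -- inclusion-exclusion
  have hcount : ∀ X : Finset α, q ^ (n - Module.finrank F (Submodule.span F (v '' (X : Set α))))
      = ∑ f : Module.Dual F V, if ∀ e ∈ X, f (v e) = 0 then (1 : ℤ) else 0 := by
    intro X
    rw [← hkill X, Finset.sum_boole, Nat.card_eq_fintype_card, Fintype.card_subtype]
  simp only [hcount]
  simp only [Finset.mul_sum]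
  rw [Finset.sum_comm]
  have hinner : ∀ f : Module.Dual F V, ∑ X ∈ E'.powerset,
      (-1 : ℤ) ^ X.card * (if ∀ e ∈ X, f (v e) = 0 then (1 : ℤ) else 0)
      = if ∀ e ∈ M.E, f (v e) ≠ 0 then 1 else 0 := by
    intro f
    set Z := E'.filter (fun e => f (v e) = 0) with hZ
    have e1 : ∑ X ∈ E'.powerset, (-1 : ℤ) ^ X.card * (if ∀ e ∈ X, f (v e) = 0 then (1 : ℤ) else 0)
        = ∑ X ∈ Z.powerset, (-1 : ℤ) ^ X.card := by
      rw [← Finset.sum_filter_add_sum_filter_not E'.powerset (fun X => X ⊆ Z)]
      have a1 : ∑ X ∈ E'.powerset.filter (fun X => ¬ X ⊆ Z),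
          (-1 : ℤ) ^ X.card * (if ∀ e ∈ X, f (v e) = 0 then (1 : ℤ) else 0) = 0 := by
        refine Finset.sum_eq_zero fun X hX => ?_
        rw [Finset.mem_filter, Finset.mem_powerset] at hX
        rw [if_neg, mul_zero]
        intro hall
        exact hX.2 (fun e he => Finset.mem_filter.2 ⟨hX.1 he, hall e he⟩)
      rw [a1, add_zero]
      have a2 : E'.powerset.filter (fun X => X ⊆ Z) = Z.powerset := by
        ext X
        simp only [Finset.mem_filter, Finset.mem_powerset]
        exact ⟨fun h => h.2, fun h => ⟨h.trans (Finset.filter_subset _ _), h⟩⟩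
      rw [a2]
      refine Finset.sum_congr rfl fun X hX => ?_
      rw [if_pos, mul_one]
      intro e he
      exact (Finset.mem_filter.1 (Finset.mem_powerset.1 hX he)).2
    rw [e1, Finset.sum_powerset_neg_one_pow_card]
    by_cases hZe : Z = ∅
    · rw [if_pos hZe, if_pos]
      intro e he hfe
      have : e ∈ Z := Finset.mem_filter.2 ⟨Finset.mem_filter.2 ⟨Finset.mem_univ _, he⟩, hfe⟩
      rw [hZe] at this
      simp at this
    · rw [if_neg hZe, if_neg]
      intro hall
      obtain ⟨e, he⟩ := Finset.nonempty_iff_ne_empty.2 hZe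
      rw [hZ, Finset.mem_filter, hE', Finset.mem_filter] at he
      exact hall e he.1.2 he.2
  rw [Finset.sum_congr rfl (fun f _ => hinner f), Finset.sum_boole, Nat.card_eq_fintype_card,
    Fintype.card_subtype]

end Linear


/-! ### The cycle matroid of the complete graph -/

section Cycle

variable (F : Type) [Field F] {n : ℕ}

/-- the vector `e_b - e_a` of the edge `ab`, `a < b` -/
def kvec (e : Sym2 (Fin n)) : Fin n → F := Pi.single e.sup 1 - Pi.single e.inf 1

theorem kvec_mk (a b : Fin n) : kvec F s(a, b) = Pi.single a 1 - Pi.single b 1 ∨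
    kvec F s(a, b) = -(Pi.single a 1 - Pi.single b 1) := by
  unfold kvec
  rw [Sym2.sup_mk, Sym2.inf_mk]
  rcases le_total a b with h | h
  · right
    rw [sup_eq_right.2 h, inf_eq_left.2 h, neg_sub]
  · left
    rw [sup_eq_left.2 h, inf_eq_right.2 h]

theorem kvec_mem_iff (S : Submodule F (Fin n → F)) (a b : Fin n) :
    kvec F s(a, b) ∈ S ↔ (Pi.single a 1 - Pi.single b 1 : Fin n → F) ∈ S := by
  rcases kvec_mk F a b with h | h
  · rw [h]
  · rw [h, Submodule.neg_mem_iff]

theorem reach_span (G : SimpleGraph (Fin n)) (J : Set (Sym2 (Fin n)))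
    (hG : ∀ a b, G.Adj a b → s(a, b) ∈ J) {a b : Fin n} (h : G.Reachable a b) :
    (Pi.single a 1 - Pi.single b 1 : Fin n → F) ∈ Submodule.span F (kvec F '' J) := by
  obtain ⟨p⟩ := h
  induction p with
  | nil => simp
  | @cons u v w hadj p ih =>
    have h1 : (Pi.single u 1 - Pi.single v 1 : Fin n → F) ∈ Submodule.span F (kvec F '' J) := by
      rw [← kvec_mem_iff]
      exact Submodule.subset_span ⟨_, hG u v hadj, rfl⟩
    have : (Pi.single u 1 - Pi.single w 1 : Fin n → F)
        = (Pi.single u 1 - Pi.single v 1) + (Pi.single v 1 - Pi.single w 1) := by abel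
    rw [this]
    exact Submodule.add_mem _ h1 ih

theorem cycle_indep (I : Set (Sym2 (Fin n))) (hI : I ⊆ (⊤ : SimpleGraph (Fin n)).edgeSet) :
    LinearIndepOn F (kvec F) I ↔ (SimpleGraph.fromEdgeSet I).IsAcyclic := by
  classical
  have hdel : ∀ (e0 : Sym2 (Fin n)) (a b : Fin n),
      ((SimpleGraph.fromEdgeSet I).deleteEdges {e0}).Adj a b → s(a, b) ∈ I \ {e0} := by
    intro e0 a b h
    rw [SimpleGraph.deleteEdges_adj, SimpleGraph.fromEdgeSet_adj] at h
    exact ⟨h.1.1, h.2⟩
  have hdel' : ∀ (e0 : Sym2 (Fin n)) (a b : Fin n), s(a, b) ∈ I \ {e0} →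
      ((SimpleGraph.fromEdgeSet I).deleteEdges {e0}).Adj a b := by
    intro e0 a b h
    rw [SimpleGraph.deleteEdges_adj, SimpleGraph.fromEdgeSet_adj]
    have := hI h.1
    rw [SimpleGraph.mem_edgeSet, SimpleGraph.top_adj] at this
    exact ⟨⟨h.1, this⟩, h.2⟩
  rw [SimpleGraph.isAcyclic_iff_forall_adj_isBridge, linearIndepOn_iff_notMem_span]
  constructor
  · intro h a b hab
    rw [SimpleGraph.isBridge_iff]
    intro hr
    rw [SimpleGraph.fromEdgeSet_adj] at hab
    refine h s(a, b) hab.1 ?_
    rw [kvec_mem_iff]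
    exact reach_span F _ _ (hdel s(a, b)) hr
  · intro h e0 he0
    induction e0 using Sym2.ind with
    | _ a b =>
      have hne : a ≠ b := by
        have := hI he0
        rwa [SimpleGraph.mem_edgeSet, SimpleGraph.top_adj] at this
      have hbr := h (show (SimpleGraph.fromEdgeSet I).Adj a b from
        (SimpleGraph.fromEdgeSet_adj I).2 ⟨he0, hne⟩)
      rw [SimpleGraph.isBridge_iff] at hbr
      set G := (SimpleGraph.fromEdgeSet I).deleteEdges {s(a, b)} with hG
      let φ : (Fin n → F) →ₗ[F] F :=
        ∑ x ∈ Finset.univ.filter (fun x => G.Reachable a x), LinearMap.proj x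
      have hφs : ∀ c, φ (Pi.single c 1) = if G.Reachable a c then 1 else 0 := by
        intro c
        simp only [φ, LinearMap.sum_apply, LinearMap.proj_apply]
        by_cases hc : G.Reachable a c
        · rw [if_pos hc, Finset.sum_eq_single c]
          · simp
          · intro x _ hx
            simp [hx]
          · intro hn
            exact absurd (Finset.mem_filter.2 ⟨Finset.mem_univ _, hc⟩) hn
        · rw [if_neg hc]
          refine Finset.sum_eq_zero fun x hx => ?_
          have : x ≠ c := by
            rintro rfl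
            exact hc (Finset.mem_filter.1 hx).2
          simp [this]
      intro hmem
      rw [kvec_mem_iff] at hmem
      have hle : Submodule.span F (kvec F '' (I \ {s(a, b)})) ≤ LinearMap.ker φ := by
        rw [Submodule.span_le]
        rintro _ ⟨e, he, rfl⟩
        induction e using Sym2.ind with
        | _ c d =>
          rw [SetLike.mem_coe, kvec_mem_iff, LinearMap.mem_ker, map_sub, hφs, hφs]
          have hadj : G.Adj c d := hdel' _ c d he
          by_cases hc : G.Reachable a c
          · rw [if_pos hc, if_pos (hc.trans hadj.reachable), sub_self]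
          · rw [if_neg hc, if_neg (fun hd => hc (hd.trans hadj.symm.reachable)), sub_self]
      have := hle hmem
      rw [LinearMap.mem_ker, map_sub, hφs, hφs, if_pos (SimpleGraph.Reachable.refl a),
        if_neg hbr, sub_zero] at this
      exact one_ne_zero this

/-- the cycle matroid of the complete graph on `n` vertices -/
noncomputable def KM (n : ℕ) : Matroid (Sym2 (Fin n)) :=
  linMat F (⊤ : SimpleGraph (Fin n)).edgeSet (kvec F)

theorem KM_isCycleMatroid (n : ℕ) : IsCycleMatroid (⊤ : SimpleGraph (Fin n)) (KM F n) := by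
  refine ⟨rfl, fun I hI => ?_⟩
  rw [← cycle_indep F I hI]
  exact linMat_rep _ _ I hI

end Cycle

/-! ### The example -/

instance fact5 : Fact (Nat.Prime 5) := ⟨by norm_num⟩

abbrev F5 := ZMod 5

/-- six points of `AG(3,5)` -/
def U : Fin 6 → Fin 3 → F5 := ![![0,0,0], ![1,0,0], ![0,1,0], ![0,0,1], ![0,1,1], ![1,0,1]]

/-- the ten directions determined by these points -/
def v : Fin 10 → Fin 3 → F5 := ![![0,0,1], ![0,1,0], ![0,1,1], ![0,4,1], ![1,0,0], ![1,0,1],
  ![4,0,1], ![4,1,0], ![1,4,1], ![4,1,1]]

/-- the edges of `K₆` giving them -/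
def rho : Fin 10 → Sym2 (Fin 6) := ![s(0,3), s(0,2), s(0,4), s(2,3), s(0,1), s(0,5),
  s(1,3), s(1,2), s(2,5), s(1,4)]

/-- The counterexample: a rank-3 matroid on ten elements. -/
noncomputable def M : Matroid (Fin 10) := linMat F5 Set.univ v

/-- direction of an edge -/
def w (e : Sym2 (Fin 6)) : Fin 3 → F5 := U e.sup - U e.inf

noncomputable def Q : Matroid (Sym2 (Fin 6)) := linMat F5 (⊤ : SimpleGraph (Fin 6)).edgeSet w

theorem M_E : M.E = Set.univ := rfl

theorem M_rep : IsRep F5 M v := linMat_rep _ _

theorem Q_rep : IsRep F5 Q w := linMat_rep _ _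

theorem w_rho : ∀ i, w (rho i) = v i := by decide

/-- the linear functional with given coefficients -/
def lf (a : Fin 3 → F5) : Module.Dual F5 (Fin 3 → F5) :=
  a 0 • LinearMap.proj 0 + a 1 • LinearMap.proj 1 + a 2 • LinearMap.proj 2

def dot (a x : Fin 3 → F5) : F5 := a 0 * x 0 + a 1 * x 1 + a 2 * x 2

theorem lf_apply (a x : Fin 3 → F5) : lf a x = dot a x := by
  simp [lf, dot]

theorem exists_lf (f : Module.Dual F5 (Fin 3 → F5)) : ∃ a : Fin 3 → F5, ∀ x, f x = dot a x := by
  refine ⟨![f (Pi.single 0 1), f (Pi.single 1 1), f (Pi.single 2 1)], fun x => ?_⟩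
  have : x = x 0 • (Pi.single 0 1 : Fin 3 → F5) + x 1 • (Pi.single 1 1 : Fin 3 → F5)
      + x 2 • (Pi.single 2 1 : Fin 3 → F5) := by
    funext i
    fin_cases i <;> simp
  conv_lhs => rw [this]
  rw [map_add, map_add, map_smul, map_smul, map_smul]
  simp [dot]
  ring

def cross (a b : Fin 3 → F5) : Fin 3 → F5 :=
  ![a 1 * b 2 - a 2 * b 1, a 2 * b 0 - a 0 * b 2, a 0 * b 1 - a 1 * b 0]

theorem dot_cross_left (a b : Fin 3 → F5) : dot (cross a b) a = 0 := by
  simp only [dot, cross, Matrix.cons_val_zero, Matrix.cons_val_one, Matrix.cons_val]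
  ring

theorem dot_cross_right (a b : Fin 3 → F5) : dot (cross a b) b = 0 := by
  simp only [dot, cross, Matrix.cons_val_zero, Matrix.cons_val_one, Matrix.cons_val]
  ring

theorem pair_indep : ∀ e f : Fin 10, e ≠ f → ∀ c d : F5,
    (∀ i, c * v e i + d * v f i = 0) → c = 0 ∧ d = 0 := by decide +kernel

theorem single_ne : ∀ e : Fin 10, ∃ i, v e i ≠ 0 := by decide +kernel

/-- every functional vanishes on some element -/
theorem blocking : ∀ a b c : F5, ∃ e : Fin 10, a * v e 0 + b * v e 1 + c * v e 2 = 0 := by
  decide +kernel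

/-- tangents -/
theorem tangent : ∀ d : Fin 10, ∃ a b c : F5, a * v d 0 + b * v d 1 + c * v d 2 = 0 ∧
    ∀ e, e ≠ d → a * v e 0 + b * v e 1 + c * v e 2 ≠ 0 := by
  decide +kernel

/-- lines -/
theorem line : ∀ c c' e : Fin 10, c ≠ c' → dot (cross (v c) (v c')) (v e) = 0 →
    ∃ x y : F5, ∀ i, v e i = x * v c i + y * v c' i := by
  decide +kernel

/-- no line is modular -/
theorem disjoint_line : ∀ a b : Fin 10, a ≠ b → ∃ c d : Fin 10, c ≠ d ∧
    ∀ e, ¬ (dot (cross (v a) (v b)) (v e) = 0 ∧ dot (cross (v c) (v d)) (v e) = 0) := by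
  decide +kernel


theorem M_indep (I : Set (Fin 10)) : M.Indep I ↔ LinearIndepOn F5 v I :=
  M_rep I (Set.subset_univ _)

theorem v_pair {e f : Fin 10} (h : e ≠ f) : LinearIndepOn F5 v {e, f} := by
  rw [LinearIndepOn.pair_iff v h]
  intro c d hcd
  refine pair_indep e f h c d fun i => ?_
  have := congrFun hcd i
  simpa using this

theorem v_single (e : Fin 10) : LinearIndepOn F5 v {e} := by
  refine LinearIndepOn.singleton ?_
  intro h
  obtain ⟨i, hi⟩ := single_ne e
  exact hi (by rw [h]; rfl)

theorem M_simple : IsSimple M := by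
  intro e _ f _
  rw [M_indep]
  by_cases h : e = f
  · rw [h, Set.pair_eq_singleton]
    exact v_single f
  · exact v_pair h

theorem M_representable : Representable F5 M := ⟨3, v, M_rep⟩

theorem finrank3 : Module.finrank F5 (Fin 3 → F5) = 3 := by simp

theorem ncard_le_three {I : Set (Fin 10)} (h : LinearIndepOn F5 v I) : I.ncard ≤ 3 := by
  rw [ncard_eq_finrank h]
  exact (Submodule.finrank_le _).trans finrank3.le

theorem M_charPoly_one : charPoly M 1 = 0 := by
  classical
  unfold charPoly
  simp only [one_pow, mul_one]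
  have : (Finset.univ : Finset (Finset (Fin 10))).filter
      (fun X : Finset (Fin 10) => (X : Set (Fin 10)) ⊆ M.E) = (Finset.univ : Finset (Fin 10)).powerset := by
    ext X
    simp [M_E]
  rw [this, Finset.sum_powerset_neg_one_pow_card_of_nonempty (Finset.univ_nonempty)]

theorem M_charPoly_five : charPoly M 5 = 0 := by
  have h := critical M_rep
  have hc : Fintype.card F5 = 5 := ZMod.card 5
  rw [hc] at h
  have h0 : Nat.card {f : Module.Dual F5 (Fin 3 → F5) // ∀ e ∈ M.E, f (v e) ≠ 0} = 0 := by
    rw [Nat.card_eq_zero]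
    left
    constructor
    rintro ⟨f, hf⟩
    obtain ⟨a, ha⟩ := exists_lf f
    obtain ⟨e, he⟩ := blocking (a 0) (a 1) (a 2)
    exact hf e (Set.mem_univ _) (by rw [ha]; exact he)
  rw [h0] at h
  push_cast at h
  rcases mul_eq_zero.1 h with h | h
  · exact h
  · exact absurd h (by positivity)

theorem M_not_critLE : ¬ CritLE M (Fintype.card F5) 1 := by
  rintro ⟨_, j, hj, hpos⟩
  have hc : Fintype.card F5 = 5 := ZMod.card 5
  rw [hc] at hpos
  interval_cases j
  · simp only [pow_zero] at hpos
    rw [M_charPoly_one] at hpos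
    exact lt_irrefl _ hpos
  · simp only [pow_one] at hpos
    have := M_charPoly_five
    push_cast at hpos
    rw [this] at hpos
    exact lt_irrefl _ hpos

theorem minor_crit (N : Matroid (Fin 10)) (hN : N <m M) (hs : IsSimple N) :
    CritLE N (Fintype.card F5) 1 := by
  classical
  refine ⟨fun e he => by simpa using hs e he e he, 1, le_refl _, ?_⟩
  obtain ⟨C, D, hC, hD, hCD, hNe⟩ := hN.isMinor.exists_eq_contract_delete_disjoint
  obtain ⟨I, hI⟩ := M.exists_isBasis C
  have hIl : LinearIndepOn F5 v I := (M_indep I).1 hI.indep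
  set S := Submodule.span F5 (v '' I) with hS
  have hNE : N.E = (M.E \ C) \ D := by rw [hNe]; rfl
  have hrep : IsRep F5 N (S.mkQ ∘ v) := by
    intro J hJ
    have hJC : Disjoint C J := by
      rw [Set.disjoint_left]
      intro x hx hxJ
      have := hJ hxJ
      rw [hNE] at this
      exact this.1.2 hx
    have hJD : Disjoint J D := by
      rw [Set.disjoint_left]
      intro x hx hxD
      have := hJ hx
      rw [hNE] at this
      exact this.2 hxD
    have hIJ : Disjoint I J := hJC.mono_left hI.subset
    rw [hIl.quotient_iff_union hIJ, hNe, delete_indep_iff, hI.contract_indep_iff,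
      M_indep, Set.union_comm]
    exact ⟨fun h => h.1.1, fun h => ⟨⟨h, hJC⟩, hJD⟩⟩
  -- elements of N are nonloops modulo I
  have hnon : ∀ e ∈ N.E, e ∉ I ∧ v e ∉ S := by
    intro e he
    have h1 : N.Indep {e} := by simpa using hs e he e he
    rw [hNe, delete_indep_iff, hI.contract_indep_iff] at h1
    have heC : e ∉ C := by
      have := he
      rw [hNE] at this
      exact this.1.2
    have heI : e ∉ I := fun h => heC (hI.subset h)
    have h2 := (M_indep _).1 h1.1.1
    rw [Set.singleton_union] at h2
    exact ⟨heI, h2.notMem_span_of_insert heI⟩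
  obtain ⟨f0, hf0, hf0'⟩ : ∃ f0 : Module.Dual F5 (Fin 3 → F5), (∀ e ∈ I, f0 (v e) = 0) ∧
      ∀ e ∈ N.E, f0 (v e) ≠ 0 := by
    have hIfin : I.Finite := Set.toFinite _
    rcases Nat.lt_or_ge I.ncard 3 with hlt | hge
    · have hcases : I.ncard = 0 ∨ I.ncard = 1 ∨ I.ncard = 2 := by omega
      rcases hcases with h | h | h
      · rw [Set.ncard_eq_zero hIfin] at h
        have hC0 : C = ∅ := by
          rw [Set.eq_empty_iff_forall_notMem]
          intro c hc
          have h1 : M.Indep {c} := (M_indep _).2 (v_single c)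
          have h2 := hI.subset_closure hc
          rw [h] at h2
          have h3 := (M_rep.mem_closure_indep M.empty_indep (Set.mem_univ c)).1 h2
          rw [Set.image_empty, Submodule.span_empty, Submodule.mem_bot] at h3
          obtain ⟨i, hi⟩ := single_ne c
          exact hi (by rw [h3]; rfl)
        have hDne : D.Nonempty := by
          rw [Set.nonempty_iff_ne_empty]
          intro hD0
          apply hN.ne
          rw [hNe, hC0, hD0]
          simp
        obtain ⟨d, hd⟩ := hDne
        obtain ⟨a, b, c, h0, h1⟩ := tangent d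
        refine ⟨lf ![a, b, c], ?_, ?_⟩
        · rw [h]; simp
        · intro e he
          have hed : e ≠ d := by
            rintro rfl
            rw [hNE] at he
            exact he.2 hd
          rw [lf_apply]
          exact h1 e hed
      · obtain ⟨c, hc⟩ := Set.ncard_eq_one.1 h
        obtain ⟨a, b, c', h0, h1⟩ := tangent c
        refine ⟨lf ![a, b, c'], ?_, ?_⟩
        · rw [hc]
          rintro e rfl
          rw [lf_apply]
          exact h0
        · intro e he
          have hed : e ≠ c := by
            rintro rfl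
            exact (hnon e he).1 (by rw [hc]; rfl)
          rw [lf_apply]
          exact h1 e hed
      · obtain ⟨c, c', hne, hc⟩ := Set.ncard_eq_two.1 h
        refine ⟨lf (cross (v c) (v c')), ?_, ?_⟩
        · rw [hc]
          rintro e (rfl | rfl)
          · rw [lf_apply]; exact dot_cross_left _ _
          · rw [lf_apply]; exact dot_cross_right _ _
        · intro e he h0
          rw [lf_apply] at h0
          obtain ⟨x, y, hxy⟩ := line c c' e hne h0
          apply (hnon e he).2
          have : v e = x • v c + y • v c' := by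
            funext i
            simpa using hxy i
          rw [this, hS, hc]
          refine Submodule.add_mem _ (Submodule.smul_mem _ _ (Submodule.subset_span ⟨c, by simp, rfl⟩))
            (Submodule.smul_mem _ _ (Submodule.subset_span ⟨c', by simp, rfl⟩))
    · have hE0 : ∀ e, e ∉ N.E := by
        intro e he
        have h1 := hnon e he
        have h2 : LinearIndepOn F5 v (insert e I) := hIl.insert h1.2
        have h3 := ncard_le_three h2
        rw [Set.ncard_insert_of_notMem h1.1 hIfin] at h3
        omega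
      exact ⟨0, fun _ _ => rfl, fun e he => absurd he (hE0 e)⟩
  have hle : S ≤ LinearMap.ker f0 := by
    rw [hS, Submodule.span_le]
    rintro _ ⟨e, he, rfl⟩
    exact hf0 e he
  have hcrit := critical hrep
  have hpos : 0 < Nat.card {f : Module.Dual F5 ((Fin 3 → F5) ⧸ S) //
      ∀ e ∈ N.E, f ((S.mkQ ∘ v) e) ≠ 0} := by
    have : Finite (Module.Dual F5 ((Fin 3 → F5) ⧸ S)) := Module.finite_of_finite F5
    rw [Nat.card_pos_iff]
    refine ⟨⟨⟨S.liftQ f0 hle, ?_⟩⟩, inferInstance⟩
    intro e he
    exact hf0' e he
  have hpos' : (0 : ℤ) < Nat.card {f : Module.Dual F5 ((Fin 3 → F5) ⧸ S) //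
      ∀ e ∈ N.E, f ((S.mkQ ∘ v) e) ≠ 0} := by exact_mod_cast hpos
  rw [← hcrit] at hpos'
  have hq : (0 : ℤ) < (Fintype.card F5 : ℤ) ^ (Module.finrank F5 ((Fin 3 → F5) ⧸ S) -
      Module.finrank F5 (Submodule.span F5 ((S.mkQ ∘ v) '' N.E))) := by
    have hc : Fintype.card F5 = 5 := ZMod.card 5
    rw [hc]
    positivity
  rw [pow_one]
  by_contra hcon
  exact absurd hpos' (not_lt.2 (mul_nonpos_of_nonpos_of_nonneg (not_lt.1 hcon) hq.le))

theorem M_tangential : IsTangentialBlock F5 1 M :=
  ⟨M_simple, M_representable, M_not_critLE, minor_crit⟩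

theorem M_eRank : M.eRank = 3 := by
  rw [← M.eRk_ground, M_rep.eRk (subset_refl _)]
  have h1 : LinearIndepOn F5 v {0, 1, 4} := by
    have h2 : LinearIndepOn F5 v {1, 4} := v_pair (by decide)
    refine h2.insert ?_
    intro hmem
    have hle : Submodule.span F5 (v '' {1, 4}) ≤ LinearMap.ker (lf ![0, 0, 1]) := by
      rw [Submodule.span_le]
      rintro _ ⟨e, (rfl | rfl), rfl⟩
      · rw [SetLike.mem_coe, LinearMap.mem_ker, lf_apply]; decide
      · rw [SetLike.mem_coe, LinearMap.mem_ker, lf_apply]; decide
    have := hle hmem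
    rw [LinearMap.mem_ker, lf_apply] at this
    revert this
    decide
  have h3 := ncard_eq_finrank h1
  have h4 : ({0, 1, 4} : Set (Fin 10)).ncard = 3 := by
    rw [Set.ncard_eq_toFinset_card']
    decide
  have h5 : Module.finrank F5 (Submodule.span F5 (v '' {0, 1, 4})) ≤
      Module.finrank F5 (Submodule.span F5 (v '' M.E)) :=
    Submodule.finrank_mono (Submodule.span_mono (Set.image_mono (Set.subset_univ _)))
  have h6 : Module.finrank F5 (Submodule.span F5 (v '' M.E)) ≤ 3 := by
    exact (Submodule.finrank_le _).trans finrank3.le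
  have h7 : Module.finrank F5 (Submodule.span F5 (v '' M.E)) = 3 := by omega
  rw [h7]
  rfl

theorem M_no_modular : ¬ HasModularHyperplane M := by
  rintro ⟨F, ⟨hF, hmod⟩, hrk⟩
  rw [M_eRank] at hrk
  have hF2 : M.eRk F = 2 := by
    have h3 : (3 : ℕ∞) = 2 + 1 := by norm_num
    rw [h3] at hrk
    exact (ENat.add_left_injective_of_ne_top (by norm_num)) hrk
  obtain ⟨I, hI⟩ := M.exists_isBasis F hF.subset_ground
  rw [hI.eRk_eq_encard, Set.encard_eq_two] at hF2
  obtain ⟨a, b, hab, rfl⟩ := hF2
  obtain ⟨c, d, hcd, hdis⟩ := disjoint_line a b hab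
  have hX := hmod (M.closure {c, d}) (M.isFlat_closure _)
  have hinc : M.Indep {c, d} := (M_indep _).2 (v_pair hcd)
  have hX2 : M.eRk (M.closure {c, d}) = 2 := by
    rw [M.eRk_closure_eq, hinc.eRk_eq_encard, Set.encard_pair hcd]
  have hkey : ∀ x y e : Fin 10, e ∈ M.closure {x, y} → M.Indep {x, y} →
      dot (cross (v x) (v y)) (v e) = 0 := by
    intro x y e he hxy
    have h1 := (M_rep.mem_closure_indep hxy (Set.mem_univ e)).1 he
    have hle : Submodule.span F5 (v '' {x, y}) ≤ LinearMap.ker (lf (cross (v x) (v y))) := by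
      rw [Submodule.span_le]
      rintro _ ⟨z, (rfl | rfl), rfl⟩
      · rw [SetLike.mem_coe, LinearMap.mem_ker, lf_apply]; exact dot_cross_left _ _
      · rw [SetLike.mem_coe, LinearMap.mem_ker, lf_apply]; exact dot_cross_right _ _
    have := hle h1
    rwa [LinearMap.mem_ker, lf_apply] at this
  have hdisj : F ∩ M.closure {c, d} = ∅ := by
    rw [Set.eq_empty_iff_forall_notMem]
    rintro e ⟨he1, he2⟩
    exact hdis e ⟨hkey a b e (hI.subset_closure he1) hI.indep, hkey c d e he2 hinc⟩
  rw [hI.eRk_eq_encard, Set.encard_pair hab, hX2, hdisj, M.eRk_empty, add_zero] at hX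
  have hle := M.eRk_le_eRank (F ∪ M.closure {c, d})
  rw [← hX, M_eRank] at hle
  revert hle
  norm_num

/-- the linear map sending vertex `i` of `K₆` to the point `U i` -/
def T : (Fin 6 → F5) →ₗ[F5] (Fin 3 → F5) :=
  ∑ i : Fin 6, (LinearMap.proj i : (Fin 6 → F5) →ₗ[F5] F5).smulRight (U i)

theorem T_single (i : Fin 6) : T (Pi.single i 1) = U i := by
  simp only [T, LinearMap.sum_apply, LinearMap.smulRight_apply, LinearMap.proj_apply]
  rw [Finset.sum_eq_single i]
  · simp
  · intro j _ hj
    simp [hj]
  · intro h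
    exact absurd (Finset.mem_univ i) h

theorem T_kvec (e : Sym2 (Fin 6)) : T (kvec F5 e) = w e := by
  rw [kvec, map_sub, T_single, T_single]
  rfl

theorem Q_quotient : IsQuotient Q (KM F5 6) := by
  refine ⟨rfl, fun F hF => ?_⟩
  have hFE : F ⊆ Q.E := hF.subset_ground
  rw [isFlat_iff_closure_eq]
  apply Set.Subset.antisymm
  · intro e he
    have heE : e ∈ (KM F5 6).E := (KM F5 6).closure_subset_ground _ he
    have h1 : kvec F5 e ∈ Submodule.span F5 (kvec F5 '' F) :=
      ((linMat_rep _ _ : IsRep F5 (KM F5 6) (kvec F5)).mem_closure hFE heE).1 he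
    have h2 : w e ∈ Submodule.span F5 (w '' F) := by
      have h3 : T (kvec F5 e) ∈ (Submodule.span F5 (kvec F5 '' F)).map T := ⟨_, h1, rfl⟩
      rw [T_kvec, Submodule.map_span, ← Set.image_comp] at h3
      have h4 : T ∘ kvec F5 = w := funext T_kvec
      rw [h4] at h3
      exact h3
    have h5 := (Q_rep.mem_closure hFE heE).2 h2
    rwa [hF.closure] at h5
  · exact (KM F5 6).subset_closure F hFE

theorem rho_inj : Function.Injective rho := by decide

theorem rho_mem : ∀ i, rho i ∈ (⊤ : SimpleGraph (Fin 6)).edgeSet := by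
  intro i
  fin_cases i <;> (show (⊤ : SimpleGraph (Fin 6)).Adj _ _) <;> decide

theorem classes : ∀ f : Sym2 (Fin 6), ¬ f.IsDiag → ∃ e : Fin 10,
    (∃ c : F5, ∀ i, w f i = c * v e i) ∧
    ∀ e', (∃ c : F5, ∀ i, w f i = c * v e' i) → e' = e := by
  decide +kernel

theorem w_ne : ∀ f : Sym2 (Fin 6), ¬ f.IsDiag → ∃ i, w f i ≠ 0 := by decide +kernel

theorem M_iso : IsIsoToSimplification M Q := by
  refine ⟨rho, rho_inj.injOn, fun e _ => rho_mem e, ?_, ?_, ?_⟩
  · intro I _
    rw [M_indep, Q_rep _ (by rintro _ ⟨i, _, rfl⟩; exact rho_mem i)]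
    have : v = w ∘ rho := by
      funext i
      exact (w_rho i).symm
    rw [this]
    constructor
    · intro h
      exact h.image_of_comp
    · intro h
      exact h.comp_of_image rho_inj.injOn
  · intro e _
    rw [Q_rep _ (by rintro _ rfl; exact rho_mem e)]
    refine LinearIndepOn.singleton ?_
    rw [w_rho]
    intro h
    obtain ⟨i, hi⟩ := single_ne e
    exact hi (by rw [h]; rfl)
  · intro f hf _
    have hfd : ¬ f.IsDiag := (⊤ : SimpleGraph (Fin 6)).not_isDiag_of_mem_edgeSet hf
    -- parallel iff proportional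
    have hpar : ∀ e : Fin 10, (rho e = f ∨ ¬ Q.Indep {rho e, f}) ↔
        ∃ c : F5, ∀ i, w f i = c * v e i := by
      intro e
      by_cases hef : rho e = f
      · refine iff_of_true (Or.inl hef) ⟨1, fun i => ?_⟩
        rw [← hef, w_rho, one_mul]
      · rw [or_iff_right hef, Q_rep _ (by
          rintro x (rfl | rfl)
          · exact rho_mem e
          · exact hf), LinearIndepOn.pair_iff w hef]
        constructor
        · intro h
          push Not at h
          obtain ⟨c, d, hcd, hne⟩ := h
          have hd : d ≠ 0 := by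
            intro hd
            rw [hd, zero_smul, add_zero, w_rho] at hcd
            have hc : c ≠ 0 := fun hc => hne hc hd
            obtain ⟨i, hi⟩ := single_ne e
            have := congrFun hcd i
            simp only [Pi.smul_apply, smul_eq_mul, Pi.zero_apply, mul_eq_zero] at this
            rcases this with h | h
            · exact hc h
            · exact hi h
          refine ⟨-(d⁻¹ * c), fun i => ?_⟩
          have := congrFun hcd i
          rw [w_rho] at this
          simp only [Pi.add_apply, Pi.smul_apply, smul_eq_mul, Pi.zero_apply] at this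
          have h2 : d * w f i = -(c * v e i) := by
            rw [eq_neg_iff_add_eq_zero, add_comm]
            exact this
          have h3 : w f i = d⁻¹ * (d * w f i) := by
            rw [← mul_assoc, inv_mul_cancel₀ hd, one_mul]
          rw [h3, h2]
          ring
        · rintro ⟨c, hc⟩ h
          have := h c (-1) (by
            funext i
            simp only [Pi.add_apply, Pi.smul_apply, smul_eq_mul, Pi.zero_apply, w_rho, hc i]
            ring)
          exact absurd this.2 (by decide)
    obtain ⟨e, he, huniq⟩ := classes f hfd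
    exact ⟨e, ⟨Set.mem_univ _, (hpar e).2 he⟩, fun e' he' => huniq e' ((hpar e').1 he'.2)⟩

theorem M_normal : IsNormal 5 1 M :=
  ⟨KM F5 6, Q, KM_isCycleMatroid F5 6, Q_quotient, M_iso⟩

/-- **Main theorem.** There is a normal tangential `1`-block over `GF(5)` (a rank-3 matroid on ten
elements) which has no modular hyperplane. -/
theorem result : ∃ M : Matroid (Fin 10), IsTangentialBlock (ZMod 5) 1 M ∧
    IsNormal (Fintype.card (ZMod 5)) 1 M ∧ ¬ HasModularHyperplane M := by
  refine ⟨M, M_tangential, ?_, M_no_modular⟩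
  rw [ZMod.card 5]
  exact M_normal

end Pool.Agent.Results.MP_5f9c07_co.NormalBlock
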